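import Mathlib

/-!
# Borcea's inequality for large degree: definitions

`n = N + 1`, `F x = (x - a) ∏ (x - z j)`, `F' x = (N+1) ∏ (x - w k)`.
-/

namespace Pool.Agent.Lib.MP_af3a4a_an.LN

open Finset MeasureTheory

/-- A counterexample, normalised: all critical points are at distance at least one from the
zero `a`, and the mean modulus of the zeros is less than one. -/
structure Cfg (N : ℕ) (a : ℂ) (z w : Fin N → ℂ) : Prop where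
  two_le : 2 ≤ N
  hderiv : ∀ x : ℂ, HasDerivAt (fun x : ℂ => (x - a) * ∏ j, (x - z j))
    (((N : ℂ) + 1) * ∏ k, (x - w k)) x
  far : ∀ k, 1 ≤ ‖a - w k‖
  mass : ‖a‖ + ∑ j, ‖z j‖ < (N : ℝ) + 1

/-- `W(b) = (N+1) ∫_0^1 ∏ (1 - u b_k) du` -/
noncomputable def W {N : ℕ} (b : Fin N → ℂ) : ℂ :=
  ((N : ℂ) + 1) * ∫ u in (0 : ℝ)..1, ∏ k, (1 - (u : ℂ) * b k)

/-- `b_k = a / (a - w_k)` -/
noncomputable def bb {N : ℕ} (a : ℂ) (w : Fin N → ℂ) : Fin N → ℂ := fun k => a / (a - w k)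

/-- mean of a complex vector -/
noncomputable def av {N : ℕ} (b : Fin N → ℂ) : ℂ := (1 / (N : ℂ)) * ∑ k, b k

/-- `q = (1/N) ∑ |1 - b_k|`, a function of the vector `b` -/
noncomputable def qq {N : ℕ} (b : Fin N → ℂ) : ℝ := (1 / (N : ℝ)) * ∑ k, ‖1 - b k‖

/-- `μ_1 = (1/N) ∑ 1/d_k` -/
noncomputable def mu1 {N : ℕ} (a : ℂ) (w : Fin N → ℂ) : ℂ := (1 / (N : ℂ)) * ∑ k, 1 / (a - w k)

/-- `μ_2 = (1/N) ∑ 1/d_k^2` -/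
noncomputable def mu2 {N : ℕ} (a : ℂ) (w : Fin N → ℂ) : ℂ :=
  (1 / (N : ℂ)) * ∑ k, 1 / (a - w k) ^ 2

/-- the variance of the `1/d_k` -/
noncomputable def VV {N : ℕ} (a : ℂ) (w : Fin N → ℂ) : ℝ :=
  (1 / (N : ℝ)) * ∑ k, ‖1 / (a - w k) - mu1 a w‖ ^ 2

/-- `ψ(x) = x - 1 - log x` -/
noncomputable def psi (x : ℝ) : ℝ := x - 1 - Real.log x

/-- the polynomial -/
noncomputable def FF {N : ℕ} (a : ℂ) (z : Fin N → ℂ) (x : ℂ) : ℂ := (x - a) * ∏ j, (x - z j)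

/-- `F / F'` -/
noncomputable def Q0 {N : ℕ} (a : ℂ) (z w : Fin N → ℂ) (x : ℂ) : ℂ :=
  FF a z x / (((N : ℂ) + 1) * ∏ k, (x - w k))

/-- `K(ζ) = - F(a - ζ) / F'(a - ζ)` -/
noncomputable def K {N : ℕ} (a : ℂ) (z w : Fin N → ℂ) (ζ : ℂ) : ℂ := -Q0 a z w (a - ζ)

/-- `Γ(ζ) = - ∑ 1/(d_k - ζ)` -/
noncomputable def Gam {N : ℕ} (a : ℂ) (w : Fin N → ℂ) (ζ : ℂ) : ℂ := -∑ k, 1 / (a - w k - ζ)

/-- Basic facts on a configuration (module FACTS). -/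
structure Facts (N : ℕ) (a : ℂ) (z w : Fin N → ℂ) : Prop where
  maj : ∀ φ : ℂ → ℝ, ConvexOn ℝ Set.univ φ → φ 0 = 0 →
    ((N : ℝ) + 1) * ∑ k, φ (w k) ≤ N * (φ a + ∑ j, φ (z j))
  prod_eq : ∏ j, (a - z j) = ((N : ℂ) + 1) * ∏ k, (a - w k)
  sum_eq : ((N : ℂ) + 1) * ∑ k, w k = N * (a + ∑ j, z j)
  ne_w : ∀ k, a - w k ≠ 0
  ne_z : ∀ j, a - z j ≠ 0
  sum_w : ∑ k, ‖w k‖ < N
  a_ne : a ≠ 0
  prod_z : ∏ j, ‖z j‖ = (∏ k, ‖a - w k‖) * ‖W (bb a w)‖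
  star : ‖a‖ * ((∏ k, ‖a - w k‖) * ‖W (bb a w)‖) < 1

/-- Facts on the function `K` (module KODE). -/
structure KFacts (N : ℕ) (a : ℂ) (z w : Fin N → ℂ) : Prop where
  diff : DifferentiableOn ℂ (K a z w) (Metric.ball 0 1)
  zero : K a z w 0 = 0
  deriv_zero : deriv (K a z w) 0 = 1
  ode : ∀ ζ : ℂ, ‖ζ‖ < 1 → deriv (K a z w) ζ = 1 - Gam a w ζ * K a z w ζ
  gam1 : ∀ ζ : ℂ, ‖ζ‖ ≤ 1 / 2 → ‖Gam a w ζ + N * mu1 a w‖ ≤ 2 * N * ‖ζ‖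
  gam2 : ∀ ζ : ℂ, ‖ζ‖ ≤ 1 / 2 → ‖Gam a w ζ + N * mu1 a w + N * mu2 a w * ζ‖ ≤ 2 * N * ‖ζ‖ ^ 2
  bound : ∀ ζ : ℂ, ‖ζ‖ ≤ 1 / 2 →
    ‖K a z w ζ‖ ≤ ‖ζ‖ * Real.exp (2 * N * (‖mu1 a w‖ * ‖ζ‖ + ‖ζ‖ ^ 2))

/-- `Θ_R(s) = s - R - R log (s/R)` for `s ≥ R`, and `0` for `s ≤ R` -/
noncomputable def Th (R s : ℝ) : ℝ := if s ≤ R then 0 else s - R - R * Real.log (s / R)

/-- the critical points at distance at most two from `a` -/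
noncomputable def near {N : ℕ} (a : ℂ) (w : Fin N → ℂ) : Finset (Fin N) :=
  univ.filter fun k => ‖a - w k‖ ≤ 2

/-- The data of the case `|a| = R` large. -/
structure Bd (N : ℕ) (R δ : ℝ) (b : Fin N → ℂ) (T : Finset (Fin N)) : Prop where
  norm_b : ∀ k, ‖b k‖ ≤ R
  sum_a : ∑ k, ‖1 - b k‖ ≤ N
  off : ∑ k ∈ Tᶜ, ‖1 - b k‖ ≤ δ * N
  onT : (1 - 2 * δ) * N ≤ ∑ k ∈ T, ‖1 - b k‖
  lowT : ∀ k ∈ T, R / 3 ≤ ‖1 - b k‖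
  cardT : (T.card : ℝ) * (R - 2) ≤ N

/-- `Φ(u) = exp (-(λ/2) h(uR/4))`, `λ = N/R`, `h(y) = y - log (1+y)` -/
noncomputable def Phi (N : ℕ) (R u : ℝ) : ℝ :=
  Real.exp (-(N / R / 2 * (u * R / 4 - Real.log (1 + u * R / 4))))

/-- `J_T(x) = ∑_{S ⊆ T} |S|! ∏_{k ∈ S} x_k` -/
noncomputable def JT {N : ℕ} (T : Finset (Fin N)) (x : Fin N → ℂ) : ℂ :=
  ∑ S ∈ T.powerset, (S.card.factorial : ℂ) * ∏ k ∈ S, x k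

end Pool.Agent.Lib.MP_af3a4a_an.LN
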