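import Pool.Agent.Lib.MP_af3a4a_an.LN.Defs

/-!
# Borcea's inequality for large degree: statements of the modules

Every `X_S` is a proposition proved in the module `X` (file `LN/X.lean`); a module may assume the
statements listed in its description in the table `bor_modules`.
-/

namespace Pool.Agent.Lib.MP_af3a4a_an.LN

open Finset MeasureTheory Set

/-! ## A. Foundations -/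

/-- convex majorisation (de Bruijn - Springer), for `φ 0 = 0` -/
def MAJ_S : Prop := ∀ (N : ℕ) (a : ℂ) (z w : Fin N → ℂ), Cfg N a z w →
  ∀ φ : ℂ → ℝ, ConvexOn ℝ Set.univ φ → φ 0 = 0 →
    ((N : ℝ) + 1) * ∑ k, φ (w k) ≤ N * (φ a + ∑ j, φ (z j))

def FACTS_S : Prop := ∀ (N : ℕ) (a : ℂ) (z w : Fin N → ℂ), Cfg N a z w → Facts N a z w

def KODE_S : Prop := ∀ (N : ℕ) (a : ℂ) (z w : Fin N → ℂ), Cfg N a z w → KFacts N a z w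

/-! ## B. Bounded `a`, `q ≤ 1 - δ` -/

def INTERP_S : Prop := ∀ (N : ℕ) (b : Fin N → ℂ) (δ : ℝ), 1 ≤ N → 0 < δ → qq b ≤ 1 - δ →
  ‖av b * W b - 1‖ ≤ 120 * ((1 / (N : ℝ)) * ∑ k, ‖b k - av b‖ ^ 2) / (δ ^ 3 * N) + qq b ^ (N + 1)

def REG1A_S : Prop := ∀ M δ : ℝ, 0 < M → 0 < δ → ∃ N0 : ℕ, ∀ N : ℕ, N0 ≤ N →
  ∀ (a : ℂ) (z w : Fin N → ℂ), Cfg N a z w → Facts N a z w → ‖a‖ ≤ M → qq (bb a w) ≤ 1 - δ →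
    (∀ j, z j ≠ 0) ∧ 1 / 2 ≤ ‖a‖ * ∏ j, ‖z j‖ ∧
    psi ‖a‖ + ∑ j, psi ‖z j‖ + ∑ k, Real.log ‖a - w k‖ + VV a w / 4 < 2 * qq (bb a w) ^ (N + 1)

def REG1_S : Prop := ∀ M δ : ℝ, 0 < M → 0 < δ → ∃ N0 : ℕ, ∀ N : ℕ, N0 ≤ N →
  ∀ (a : ℂ) (z w : Fin N → ℂ), Cfg N a z w → Facts N a z w → ‖a‖ ≤ M → qq (bb a w) ≤ 1 - δ → False

/-! ## C. The gain inequality -/

def TH_S : Prop := ∀ R : ℝ, 0 < R →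
  ConvexOn ℝ Set.univ (fun x : ℂ => Th R ‖x‖) ∧ (∀ s, 0 ≤ s → 0 ≤ Th R s) ∧
  (∀ s, 0 ≤ s → ∫ ρ in (0 : ℝ)..R, Real.log (max ρ s) = R * Real.log R - R + s - Th R s)

/-- potential of `dA/|x|` on the disc of radius `R` -/
def POT_S : Prop := ∀ (R : ℝ) (s : ℂ), 0 < R →
  IntegrableOn (fun x : ℂ => Real.log ‖x - s‖ * ‖x‖⁻¹) (Metric.ball 0 R) ∧
  ∫ x in Metric.ball (0 : ℂ) R, Real.log ‖x - s‖ * ‖x‖⁻¹ =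
    2 * Real.pi * ∫ ρ in (0 : ℝ)..R, Real.log (max ρ ‖s‖)

def KER_S : Prop := ∀ (R : ℝ) (s : ℂ), 0 < R →
  IntegrableOn (fun x : ℂ => ‖x - s‖⁻¹) (Metric.ball 0 R) ∧
  ∫ x in Metric.ball (0 : ℂ) R, ‖x - s‖⁻¹ ≤ 2 * Real.pi + Real.pi * R ^ 2

/-- area mean value inequality for `log⁺ |F/F'|` in the disc where `F'` has no zero -/
def SUBM_S : Prop := ∀ (N : ℕ) (a : ℂ) (z w : Fin N → ℂ), (∀ k, 1 ≤ ‖a - w k‖) →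
  ∀ ζ : ℂ, ‖ζ‖ ≤ 1 / 4 →
    IntegrableOn (fun x : ℂ => Real.posLog ‖Q0 a z w x‖) (Metric.ball (a - ζ) (1 / 4)) ∧
    Real.posLog ‖Q0 a z w (a - ζ)‖ ≤
      16 / Real.pi * ∫ x in Metric.ball (a - ζ) (1 / 4), Real.posLog ‖Q0 a z w x‖

def GAIN_S : Prop := ∀ M : ℝ, 0 < M → ∃ C : ℝ, 0 < C ∧ ∀ (N : ℕ) (a : ℂ) (z w : Fin N → ℂ),
  Cfg N a z w → Facts N a z w → ‖a‖ ≤ M → ∀ ζ : ℂ, ‖ζ‖ ≤ 1 / 4 →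
    ‖K a z w ζ‖ ≤ Real.exp (C * ((N : ℝ) + 1 - ∑ k, ‖w k‖))

/-! ## D. Bounded `a`, `q` close to one -/

def BOOT_S : Prop := ∀ (K : ℂ → ℂ) (r ra rb γ B : ℝ) (m : ℕ), 0 ≤ ra → ra < rb → rb < r →
  0 < γ → 1 ≤ m → 2 * Real.exp 1 * m ≤ γ * (rb - ra) →
  DifferentiableOn ℂ K (Metric.ball 0 r) → deriv K 0 = 1 →
  (∀ ζ : ℂ, ra ≤ ‖ζ‖ → ‖ζ‖ ≤ rb → γ * ‖K ζ‖ ≤ 1 + ‖deriv K ζ‖) →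
  (∀ ζ : ℂ, ra ≤ ‖ζ‖ → ‖ζ‖ ≤ rb → ‖K ζ‖ ≤ B) →
  (ra + rb) / 2 ≤ 2 / γ + Real.exp (-m) * B

def REG2A_S : Prop := ∀ M η : ℝ, 0 < M → 0 < η → ∃ δ : ℝ, 0 < δ ∧ ∃ N0 : ℕ, ∀ N : ℕ, N0 ≤ N →
  ∀ (a : ℂ) (z w : Fin N → ℂ), Cfg N a z w → Facts N a z w → KFacts N a z w → ‖a‖ ≤ M →
    1 - δ ≤ qq (bb a w) → ‖mu1 a w‖ ≤ η

def REG2B_S : Prop := ∀ M κ : ℝ, 0 < M → 0 < κ → κ ≤ 1 → ∃ δ : ℝ, 0 < δ ∧ ∃ N0 : ℕ,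
  ∀ N : ℕ, N0 ≤ N → ∀ (a : ℂ) (z w : Fin N → ℂ), Cfg N a z w → Facts N a z w → KFacts N a z w →
    ‖a‖ ≤ M → 1 - δ ≤ qq (bb a w) → ‖mu1 a w‖ ≤ κ ^ 2 / 32 → ‖mu2 a w‖ ≤ κ

def REG2C_S : Prop := ∀ M : ℝ, 0 < M → ∀ (N : ℕ) (a : ℂ) (z w : Fin N → ℂ), Cfg N a z w →
  Facts N a z w → ‖a‖ ≤ M → ‖mu2 a w‖ ≤ 1 / (2 * (1 + M) ^ 2) →
    ‖a‖ ≤ 8 * (1 + M) ^ 3 * ‖mu1 a w‖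

def REG2_S : Prop := ∀ M ε : ℝ, 0 < M → 0 < ε → ∃ δ : ℝ, 0 < δ ∧ ∃ N0 : ℕ, ∀ N : ℕ, N0 ≤ N →
  ∀ (a : ℂ) (z w : Fin N → ℂ), Cfg N a z w → Facts N a z w → KFacts N a z w → ‖a‖ ≤ M →
    1 - δ ≤ qq (bb a w) → ‖a‖ ≤ ε ∧ ‖mu1 a w‖ ≤ ε ∧ ‖mu2 a w‖ ≤ 1 / 4

def S2_S : Prop := ∀ (N : ℕ) (a : ℂ) (z w : Fin N → ℂ), Cfg N a z w → Facts N a z w →
  ‖a‖ ≤ 1 / 20 → ‖mu2 a w‖ ≤ 1 / 4 →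
    ‖a‖ ≤ 16 * ‖mu1 a w‖ ∧ ∑ k, (‖a - w k‖ - 1) ≤ 2 * ‖a‖ * N * ‖mu1 a w‖ ∧
    N - ∑ k, ‖w k‖ ≤ ‖a‖ * N * ‖mu1 a w‖

def C1_S : Prop := ∀ (N : ℕ) (a : ℂ) (z w : Fin N → ℂ), Cfg N a z w → Facts N a z w →
  ‖a‖ ≤ 1 / 20 → ‖mu2 a w‖ ≤ 1 / 4 → Real.log ((N : ℝ) + 1) - 1 ≤ 1100 * (N * ‖mu1 a w‖ ^ 2)

/-- three circles, with an integer exponent -/
def ANN_S : Prop := ∀ (Q : ℂ → ℂ) (r t1 t2 A G : ℝ) (m : ℕ), 0 < t1 → t1 < t2 → t2 < r →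
  DifferentiableOn ℂ Q (Metric.ball 0 r) → (∀ ζ : ℂ, ‖ζ‖ = t1 → ‖Q ζ‖ ≤ A) →
  (∀ ζ : ℂ, ‖ζ‖ = t2 → ‖Q ζ‖ ≤ G) →
  ∀ ζ : ℂ, t1 ≤ ‖ζ‖ → ‖ζ‖ ≤ t2 → ‖Q ζ‖ ≤ max (A * (‖ζ‖ / t1) ^ m) (G * (‖ζ‖ / t2) ^ m)

def C3_S : Prop := ∃ ε X0 : ℝ, 0 < ε ∧ 0 < X0 ∧ ∀ (N : ℕ) (a : ℂ) (z w : Fin N → ℂ),
  Cfg N a z w → Facts N a z w → KFacts N a z w → ‖a‖ ≤ 1 / 20 → ‖mu1 a w‖ ≤ ε →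
    ‖mu2 a w‖ ≤ 1 / 4 → N * ‖mu1 a w‖ ^ 2 ≤ X0

/-! ## E. Large `a` -/

def D1_S : Prop := ∀ (N : ℕ) (a : ℂ) (z w : Fin N → ℂ), Cfg N a z w → Facts N a z w →
  qq (bb a w) < 1 → 2 ≤ N * (1 - qq (bb a w)) ^ 2 → 1 ≤ ‖a‖ * (1 - qq (bb a w)) → False

def DNEAR_S : Prop := ∀ (N : ℕ) (a : ℂ) (z w : Fin N → ℂ) (δ : ℝ), Cfg N a z w → Facts N a z w →
  0 < δ → δ ≤ 1 / 16 → 6 ≤ ‖a‖ → 1 - δ ≤ qq (bb a w) → Bd N ‖a‖ δ (bb a w) (near a w)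

def D2A_S : Prop := ∀ (N : ℕ) (a : ℂ) (z w : Fin N → ℂ), 8 ≤ N → Cfg N a z w → Facts N a z w →
  Bd N ‖a‖ (1 / 16) (bb a w) (near a w) → (near a w).card = 1 → False

def D2J_S : Prop := ∀ m : ℕ, 2 ≤ m → ∃ c : ℝ, 0 < c ∧ ∀ (N : ℕ) (T : Finset (Fin N))
  (x : Fin N → ℂ), T.card = m → (∀ k ∈ T, ‖x k‖ ≤ 1 / m) → c ≤ ‖JT T x‖

def D2E_S : Prop := ∀ m : ℕ, 1 ≤ m → ∃ C : ℝ, 0 < C ∧ ∃ N0 : ℕ, ∀ N : ℕ, N0 ≤ N →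
  ∀ (R δ : ℝ) (b : Fin N → ℂ) (T : Finset (Fin N)), 0 ≤ δ → δ ≤ 1 / 16 → Bd N R δ b T →
    T.card = m →
    ‖W b - JT T (fun k => (1 - b k) / ((N : ℂ) + 3 * m))‖ ≤ C * (δ + 1 / N)

def D2_S : Prop := ∀ Λ : ℝ, 0 < Λ → ∃ δ : ℝ, 0 < δ ∧ δ ≤ 1 / 16 ∧ ∃ N0 : ℕ, ∀ N : ℕ, N0 ≤ N →
  ∀ (R : ℝ) (b : Fin N → ℂ) (T : Finset (Fin N)), Bd N R δ b T → N ≤ Λ * R → 2 ≤ T.card →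
    1 ≤ R * ‖W b‖

/-- decay, with at most three factors removed -/
def DEC_S : Prop := ∀ (N : ℕ) (R : ℝ) (b : Fin N → ℂ) (T : Finset (Fin N)), Bd N R (1 / 16) b T →
  12 ≤ R → 16 * R ≤ N → ∀ u : ℝ, 0 ≤ u → u ≤ 1 → ∀ S : Finset (Fin N), S.card ≤ 3 →
    ∏ k ∈ Sᶜ, ‖1 - (u : ℂ) * b k‖ ≤ Real.exp 3 * Phi N R u

def PHI_S : Prop := ∃ C : ℝ, 0 < C ∧ ∀ (N : ℕ) (R : ℝ), 12 ≤ R → 16 * R ≤ N →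
  ∫ u in (0 : ℝ)..1, Phi N R u ≤ C / √(R * N) ∧
  ∫ u in (0 : ℝ)..1, u * Phi N R u ≤ C / (R * N) ∧
  ∫ u in (0 : ℝ)..1, u ^ 2 * Phi N R u ≤ C / (R * N * √(R * N)) ∧
  Phi N R 1 ≤ Real.exp (-(N / 32))

/-- tails of `Φ` -/
def PHIT_S : Prop := ∀ ε : ℝ, 0 < ε → ∃ X : ℝ, 1 ≤ X ∧ ∀ x : ℝ, X ≤ x → ∃ Λ : ℝ, 16 ≤ Λ ∧
  ∀ (N : ℕ) (R : ℝ), 12 ≤ R → Λ * R ≤ N → x / √(R * N) ≤ 1 ∧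
    ∫ u in (x / √(R * N))..1, Phi N R u ≤ ε / √(R * N)

def CASEA_S : Prop := ∃ Z M Λ : ℝ, 0 < Z ∧ 12 ≤ M ∧ 16 ≤ Λ ∧ ∀ (N : ℕ) (R : ℝ) (b : Fin N → ℂ)
  (T : Finset (Fin N)), Bd N R (1 / 16) b T → M ≤ R → Λ * R ≤ N → Z * √(R / N) ≤ ‖av b‖ →
    1 / 2 ≤ ‖av b * W b‖

def ALIGN_S : Prop := ∀ (N : ℕ) (R κ : ℝ) (b : Fin N → ℂ) (T : Finset (Fin N)),
  Bd N R (1 / 16) b T → 1 ≤ N → 100 ≤ R → 0 ≤ κ → κ ≤ 1 / 400 → ‖av b‖ ≤ κ →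
    0 ≤ (av b).re ∧ R * N / 4 ≤ (∑ k, b k ^ 2).re ∧ (∑ k, b k ^ 2).re ≤ 2 * (R * N) ∧
    |(∑ k, b k ^ 2).im| ≤ 8 * √κ * (R * N) ∧ ∑ k, ‖b k‖ ≤ 2 * N

/-- lower bound for the Gaussian transform in the right half plane -/
def MRE_S : Prop := ∀ Z : ℝ, 0 < Z → ∃ c : ℝ, 0 < c ∧ ∀ (V : ℝ) (κ : ℂ), 0 < V → 0 ≤ κ.re →
  ‖κ‖ ≤ Z * √V →
  IntegrableOn (fun t : ℝ => Complex.exp (-κ * t - V * t ^ 2 / 2)) (Set.Ioi 0) ∧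
  c / √V ≤ ‖∫ t in Set.Ioi (0 : ℝ), Complex.exp (-κ * t - V * t ^ 2 / 2)‖

def CASEB_S : Prop := ∀ Z : ℝ, 0 < Z → ∃ M Λ : ℝ, 12 ≤ M ∧ 16 ≤ Λ ∧ ∀ (N : ℕ) (R : ℝ)
  (b : Fin N → ℂ) (T : Finset (Fin N)), Bd N R (1 / 16) b T → M ≤ R → Λ * R ≤ N →
    ‖av b‖ ≤ Z * √(R / N) → 1 ≤ ‖W b‖

def D3_S : Prop := ∃ M Λ : ℝ, 12 ≤ M ∧ 16 ≤ Λ ∧ ∀ (N : ℕ) (R : ℝ) (b : Fin N → ℂ)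
  (T : Finset (Fin N)), Bd N R (1 / 16) b T → M ≤ R → Λ * R ≤ N → 1 ≤ R * ‖W b‖

def DBIG_S : Prop := ∃ M : ℝ, 0 < M ∧ ∃ N0 : ℕ, ∀ N : ℕ, N0 ≤ N → ∀ (a : ℂ) (z w : Fin N → ℂ),
  Cfg N a z w → Facts N a z w → M ≤ ‖a‖ → False

/-! ## F. Conclusion -/

def FINAL_S : Prop := ∃ N0 : ℕ, ∀ N : ℕ, N0 ≤ N → ∀ (a : ℂ) (z w : Fin N → ℂ), ¬ Cfg N a z w

def MAIN_S : Prop := ∃ n₀ : ℕ, ∀ n : ℕ, n₀ ≤ n → ∀ (z : Fin n → ℂ) (p : ℝ), 1 ≤ p →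
  ∀ (c : ℂ) (k : Fin n), ∃ w : ℂ,
    (Polynomial.derivative (∏ j : Fin n, (Polynomial.X - Polynomial.C (z j)))).IsRoot w ∧
    ‖z k - w‖ ≤ ((1 / (n : ℝ)) * ∑ j : Fin n, ‖z j - c‖ ^ p) ^ (1 / p)

end Pool.Agent.Lib.MP_af3a4a_an.LN
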