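import Pool.Agent.Lib.MP_af3a4a_an.LN.Interfaces
import Pool.Agent.Lib.MP_af3a4a_an.DeBruijn

/-!
# Module MAJ: convex majorisation of the critical points
-/

namespace Pool.Agent.Lib.MP_af3a4a_an.LN

open Finset Polynomial Matrix
open scoped ComplexOrder

/-- Jensen with total weight at most one, for a convex function vanishing at zero -/
lemma convex_sub_le {n : ℕ} (z : Fin n → ℂ) (φ : ℂ → ℝ) (hφ : ConvexOn ℝ Set.univ φ)
    (h0 : φ 0 = 0) (c : Fin n → ℝ) (hc : ∀ j, 0 ≤ c j) (hs : ∑ j, c j ≤ 1) :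
    φ (∑ j, z j * ((c j : ℝ) : ℂ)) ≤ ∑ j, φ (z j) * c j := by
  have h1 := hφ.map_sum_le (t := (Finset.univ : Finset (Option (Fin n))))
    (w := fun o => o.elim (1 - ∑ j, c j) c) (p := fun o => o.elim 0 z)
    (by
      intro o _
      cases o with
      | none => simp only [Option.elim]; linarith
      | some j => exact hc j)
    (by
      rw [Fintype.sum_option]
      simp)
    (fun _ _ => Set.mem_univ _)
  rw [Fintype.sum_option, Fintype.sum_option] at h1
  simp only [Option.elim, smul_zero, zero_add, h0, smul_eq_mul, mul_zero] at h1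
  have h2 : ∑ j, z j * ((c j : ℝ) : ℂ) = ∑ j, c j • z j := by
    refine Finset.sum_congr rfl fun j _ => ?_
    rw [Complex.real_smul, mul_comm]
  rw [h2]
  refine h1.trans (le_of_eq ?_)
  exact Finset.sum_congr rfl fun j _ => mul_comm _ _

/-- the eigenvalues of `V D V^*` for a contraction `V` and a convex function vanishing at zero -/
theorem sum_roots_phi_le {n : ℕ} (z : Fin n → ℂ) (φ : ℂ → ℝ) (hφ : ConvexOn ℝ Set.univ φ)
    (h0 : φ 0 = 0) : ∀ (d : ℕ) (V : Matrix (Fin d) (Fin n) ℂ), (1 - V * Vᴴ).PosSemidef →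
    ((V * diagonal z * Vᴴ).charpoly.roots.map φ).sum ≤
      ∑ j, φ (z j) * ∑ i, ‖V i j‖ ^ 2 := by
  intro d
  induction d with
  | zero =>
    intro V _
    have h1 : (V * diagonal z * Vᴴ).charpoly = 1 := by
      rw [Matrix.charpoly, Matrix.det_isEmpty]
    rw [h1]
    simp
  | succ d ih =>
    intro V hV
    set A := V * diagonal z * Vᴴ with hA
    obtain ⟨l, U, hU1, hU2, hU⟩ := exists_unitary_eigen A
    set Y : Matrix (Fin (d + 1)) (Fin n) ℂ := Uᴴ * V with hY
    have hB : Uᴴ * A * U = Y * diagonal z * Yᴴ := by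
      rw [hA, hY, Matrix.conjTranspose_mul, Matrix.conjTranspose_conjTranspose]
      simp only [Matrix.mul_assoc]
    have hYV : (1 - Y * Yᴴ).PosSemidef := by
      have h : 1 - Y * Yᴴ = Uᴴ * (1 - V * Vᴴ) * U := by
        rw [hY, Matrix.conjTranspose_mul, Matrix.conjTranspose_conjTranspose, Matrix.mul_sub,
          Matrix.sub_mul, Matrix.mul_one, hU1]
        simp only [Matrix.mul_assoc]
      rw [h]
      exact hV.conjTranspose_mul_mul_same U
    have hcp : A.charpoly = (Uᴴ * A * U).charpoly := by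
      rw [Matrix.charpoly_mul_comm, ← Matrix.mul_assoc, hU2, Matrix.one_mul]
    have h1 := charpoly_of_first_column (Uᴴ * A * U) l hU
    have h2 : (Uᴴ * A * U).submatrix Fin.succ Fin.succ =
        Y.submatrix Fin.succ id * diagonal z * (Y.submatrix Fin.succ id)ᴴ := by
      rw [hB]
      ext i j
      simp [Matrix.mul_apply, Matrix.diagonal_apply]
    have hY' : (1 - Y.submatrix Fin.succ id * (Y.submatrix Fin.succ id)ᴴ).PosSemidef := by
      have h : 1 - Y.submatrix Fin.succ id * (Y.submatrix Fin.succ id)ᴴ =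
          (1 - Y * Yᴴ).submatrix Fin.succ Fin.succ := by
        ext i j
        simp [Matrix.mul_apply, Matrix.one_apply]
      rw [h]
      exact hYV.submatrix _
    rw [hcp, h1, h2, Polynomial.roots_mul (by
      apply mul_ne_zero (X_sub_C_ne_zero l)
      exact (Matrix.charpoly_monic _).ne_zero), roots_X_sub_C, Multiset.map_add,
      Multiset.sum_add, Multiset.map_singleton, Multiset.sum_singleton]
    have h3 := ih (Y.submatrix Fin.succ id) hY'
    have h4 : l = ∑ j, z j * ((‖Y 0 j‖ ^ 2 : ℝ) : ℂ) := by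
      have h5 := hU 0
      rw [if_pos rfl, hB, Matrix.mul_apply] at h5
      rw [← h5]
      refine Finset.sum_congr rfl fun j _ => ?_
      rw [Matrix.mul_diagonal, Matrix.conjTranspose_apply]
      have h6 : Y 0 j * star (Y 0 j) = ((‖Y 0 j‖ ^ 2 : ℝ) : ℂ) := by
        rw [RCLike.star_def, Complex.mul_conj, Complex.normSq_eq_norm_sq]
      rw [← h6]
      ring
    have hrow : ∑ j, ‖Y 0 j‖ ^ 2 ≤ 1 := by
      have h5 := hYV.diag_nonneg (i := 0)
      have h6 : (Y * Yᴴ) 0 0 = ((∑ j, ‖Y 0 j‖ ^ 2 : ℝ) : ℂ) := by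
        rw [Matrix.mul_apply]
        push_cast
        refine Finset.sum_congr rfl fun j _ => ?_
        rw [Matrix.conjTranspose_apply, RCLike.star_def, Complex.mul_conj,
          Complex.normSq_eq_norm_sq]
        push_cast
        rfl
      rw [Matrix.sub_apply, h6, Matrix.one_apply_eq] at h5
      have h7 : (0 : ℂ) ≤ ((1 - ∑ j, ‖Y 0 j‖ ^ 2 : ℝ) : ℂ) := by
        push_cast
        push_cast at h5
        exact h5
      have h8 := Complex.zero_le_real.1 h7
      linarith
    have h5 : φ l ≤ ∑ j, φ (z j) * ‖Y 0 j‖ ^ 2 := by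
      rw [h4]
      exact convex_sub_le z φ hφ h0 (fun j => ‖Y 0 j‖ ^ 2) (fun j => by positivity) hrow
    have h6 : ∀ j, ∑ i, ‖Y i j‖ ^ 2 = ∑ i, ‖V i j‖ ^ 2 := by
      intro j
      have h8 : Yᴴ * Y = Vᴴ * V := by
        rw [hY, Matrix.conjTranspose_mul, Matrix.conjTranspose_conjTranspose, Matrix.mul_assoc,
          ← Matrix.mul_assoc U, hU2, Matrix.one_mul]
      have h9 := conjTranspose_mul_self_diag Y j
      rw [h8, conjTranspose_mul_self_diag V j] at h9
      exact_mod_cast h9.symm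
    calc φ l + ((Y.submatrix Fin.succ id * diagonal z *
          (Y.submatrix Fin.succ id)ᴴ).charpoly.roots.map φ).sum
        ≤ ∑ j, φ (z j) * ‖Y 0 j‖ ^ 2 + ∑ j, φ (z j) * ∑ i : Fin d, ‖Y i.succ j‖ ^ 2 := by
          refine add_le_add h5 (h3.trans (le_of_eq ?_))
          simp
      _ = ∑ j, φ (z j) * ∑ i, ‖V i j‖ ^ 2 := by
          rw [← Finset.sum_add_distrib]
          refine Finset.sum_congr rfl fun j _ => ?_
          rw [← h6 j, Fin.sum_univ_succ]
          ring

lemma one_sub_P_posSemidef (n : ℕ) (hn : 0 < n) : (1 - P n * (P n)ᴴ).PosSemidef := by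
  rw [P_conjTranspose, P_mul_P n hn]
  have h : 1 - P n = (1 - P n)ᴴ * (1 - P n) := by
    rw [Matrix.conjTranspose_sub, P_conjTranspose, Matrix.conjTranspose_one, sub_mul, one_mul,
      mul_sub, mul_one, P_mul_P n hn]
    simp
  rw [h]
  exact Matrix.posSemidef_conjTranspose_mul_self _

/-- convex majorisation of the critical points -/
theorem sum_critical_phi_le (n : ℕ) (hn : 0 < n) (z : Fin n → ℂ) (φ : ℂ → ℝ)
    (hφ : ConvexOn ℝ Set.univ φ) (h0 : φ 0 = 0) :
    ((derivative (∏ j, (X - C (z j)))).roots.map φ).sum ≤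
      (1 - 1 / n) * ∑ j, φ (z j) := by
  have hn' : (n : ℂ) ≠ 0 := by exact_mod_cast hn.ne'
  have h1 := charpoly_P n hn z
  have h2 := sum_roots_phi_le z φ hφ h0 n (P n) (one_sub_P_posSemidef n hn)
  have h3 : ∀ j, ∑ i, ‖P n i j‖ ^ 2 = 1 - 1 / (n : ℝ) := by
    intro j
    have h4 := conjTranspose_mul_self_diag (P n) j
    rw [P_conjTranspose, P_mul_P n hn] at h4
    have h5 : (P n) j j = ((1 - 1 / (n : ℝ) : ℝ) : ℂ) := by
      simp [P]
    rw [h5] at h4
    exact_mod_cast h4.symm
  have h4 : (X * derivative (∏ j, (X - C (z j)))).roots =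
      (P n * diagonal z * (P n)ᴴ).charpoly.roots := by
    rw [← h1, Polynomial.roots_C_mul _ hn']
  have hne : X * derivative (∏ j, (X - C (z j))) ≠ 0 := by
    rw [← h1]
    exact mul_ne_zero (by simpa using hn') (Matrix.charpoly_monic _).ne_zero
  rw [Polynomial.roots_mul hne, roots_X] at h4
  rw [← h4, Multiset.map_add, Multiset.sum_add, Multiset.map_singleton, Multiset.sum_singleton,
    h0, zero_add] at h2
  refine h2.trans (le_of_eq ?_)
  simp_rw [h3]
  rw [← Finset.sum_mul]
  ring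

/-- the derivative of the polynomial of a configuration -/
lemma derivative_cfg {N : ℕ} {a : ℂ} {z w : Fin N → ℂ} (h : Cfg N a z w) :
    derivative (∏ j : Fin (N + 1), (X - C ((Fin.cons a z : Fin (N + 1) → ℂ) j))) =
      C ((N : ℂ) + 1) * ∏ k, (X - C (w k)) := by
  apply Polynomial.funext
  intro x
  have h1 := h.hderiv x
  have h2 := (∏ j : Fin (N + 1), (X - C ((Fin.cons a z : Fin (N + 1) → ℂ) j))).hasDerivAt x
  have h3 : (fun y : ℂ => (∏ j : Fin (N + 1), (X - C ((Fin.cons a z : Fin (N + 1) → ℂ) j))).eval y)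
      = fun y : ℂ => (y - a) * ∏ j, (y - z j) := by
    funext y
    rw [eval_prod, Fin.prod_univ_succ]
    simp
  rw [h3] at h2
  have h4 := h2.unique h1
  rw [h4, eval_mul, eval_C, eval_prod]
  simp

lemma roots_cfg {N : ℕ} {a : ℂ} {z w : Fin N → ℂ} (h : Cfg N a z w) :
    (derivative (∏ j : Fin (N + 1), (X - C ((Fin.cons a z : Fin (N + 1) → ℂ) j)))).roots =
      Finset.univ.val.map w := by
  have hn : ((N : ℂ) + 1) ≠ 0 := by exact_mod_cast Nat.succ_ne_zero N
  rw [derivative_cfg h, Polynomial.roots_C_mul _ hn, Finset.prod_eq_multiset_prod]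
  have h1 : Multiset.map (fun k => X - C (w k)) Finset.univ.val =
      Multiset.map (fun y : ℂ => X - C y) (Multiset.map w Finset.univ.val) := by
    rw [Multiset.map_map]
    rfl
  rw [h1, Polynomial.roots_multiset_prod_X_sub_C]

theorem maj : MAJ_S := by
  intro N a z w h φ hφ h0
  have h1 := sum_critical_phi_le (N + 1) (Nat.succ_pos N) (Fin.cons a z) φ hφ h0
  rw [roots_cfg h, Multiset.map_map] at h1
  have h2 : (Multiset.map (φ ∘ w) Finset.univ.val).sum = ∑ k, φ (w k) := rfl
  rw [h2, Fin.sum_univ_succ] at h1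
  simp only [Fin.cons_zero, Fin.cons_succ] at h1
  have hN : (0 : ℝ) < (N : ℝ) + 1 := by positivity
  have h3 := mul_le_mul_of_nonneg_left h1 hN.le
  refine h3.trans (le_of_eq ?_)
  push_cast
  field_simp
  ring

end Pool.Agent.Lib.MP_af3a4a_an.LN
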